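import Mathlib

set_option autoImplicit false

/-!
# The Thue-Morse sequence and sums without carries
-/

namespace Pool.Agent.Q32.TM

/-- the Thue-Morse sequence with values in `ZMod 2` -/
def tm (n : ℕ) : ZMod 2 := ((Nat.digits 2 n).sum : ZMod 2)

theorem tm_zero : tm 0 = 0 := by simp [tm]

theorem tm_bit (n b : ℕ) (hb : b < 2) : tm (b + 2 * n) = (b : ZMod 2) + tm n := by
  unfold tm
  by_cases h : b ≠ 0 ∨ n ≠ 0
  · rw [Nat.digits_add 2 (by norm_num) b n hb h]
    simp
  · push Not at h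
    obtain ⟨rfl, rfl⟩ := h
    simp

theorem tm_even (n : ℕ) : tm (2 * n) = tm n := by
  have := tm_bit n 0 (by norm_num)
  simpa using this

theorem tm_odd (n : ℕ) : tm (2 * n + 1) = tm n + 1 := by
  have := tm_bit n 1 (by norm_num)
  rw [add_comm (2 * n), this]
  push_cast
  ring

/-- no carries -/
theorem tm_add (a : ℕ) : ∀ u v : ℕ, u < 2 ^ a → tm (u + 2 ^ a * v) = tm u + tm v := by
  induction a with
  | zero =>
    intro u v hu
    have : u = 0 := by simpa using hu
    subst this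
    simp [tm_zero]
  | succ a ih =>
    intro u v hu
    have h1 : u = u % 2 + 2 * (u / 2) := (Nat.mod_add_div u 2).symm
    have h2 : u / 2 < 2 ^ a := by
      rw [pow_succ] at hu
      omega
    have h3 : u + 2 ^ (a + 1) * v = u % 2 + 2 * (u / 2 + 2 ^ a * v) := by
      rw [pow_succ]
      nlinarith [Nat.mod_add_div u 2]
    rw [h3, tm_bit _ _ (Nat.mod_lt _ (by norm_num)), ih _ _ h2]
    conv_rhs => rw [h1, tm_bit _ _ (Nat.mod_lt _ (by norm_num))]
    ring

theorem tm_pow_mul (a n : ℕ) : tm (2 ^ a * n) = tm n := by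
  have := tm_add a 0 n (by positivity)
  rw [zero_add, tm_zero, zero_add] at this
  exact this

theorem range_sep (M : ℕ) (f : ℕ → ℕ) (n : ℕ) (hf : ∀ s < n, f s < 2 ^ M) :
    ∑ s ∈ Finset.range n, f s * 2 ^ (M * s) < 2 ^ (M * n) ∧
      tm (∑ s ∈ Finset.range n, f s * 2 ^ (M * s)) = ∑ s ∈ Finset.range n, tm (f s) := by
  induction n with
  | zero => simp [tm_zero]
  | succ n ih =>
    obtain ⟨h1, h2⟩ := ih fun s hs => hf s (by omega)
    rw [Finset.sum_range_succ, Finset.sum_range_succ, ← h2]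
    constructor
    · have h3 := hf n (by omega)
      have h4 : 2 ^ (M * (n + 1)) = 2 ^ M * 2 ^ (M * n) := by rw [← pow_add]; ring_nf
      rw [h4]
      have h5 : (f n + 1) * 2 ^ (M * n) ≤ 2 ^ M * 2 ^ (M * n) := Nat.mul_le_mul_right _ h3
      linarith
    · rw [mul_comm (f n), tm_add _ _ _ h1]

/-- the Thue-Morse value of a sum of separated terms -/
theorem sum_sep {α : Type*} (S : Finset α) (e : α → ℕ) (he : Set.InjOn e S) (M : ℕ) (f : α → ℕ)
    (hf : ∀ a ∈ S, f a < 2 ^ M) :
    tm (∑ a ∈ S, f a * 2 ^ (M * e a)) = ∑ a ∈ S, tm (f a) := by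
  classical
  obtain ⟨n, hn⟩ : ∃ n, ∀ a ∈ S, e a < n := by
    refine ⟨S.sup e + 1, fun a ha => Nat.lt_succ_of_le (Finset.le_sup ha)⟩
  -- the function on the natural numbers
  set g : ℕ → ℕ := fun s => ∑ a ∈ S.filter (fun a => e a = s), f a with hg
  have hg1 : ∀ a ∈ S, g (e a) = f a := by
    intro a ha
    rw [hg]
    simp only
    have : S.filter (fun b => e b = e a) = {a} := by
      ext b
      rw [Finset.mem_filter, Finset.mem_singleton]
      constructor
      · rintro ⟨h1, h2⟩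
        exact he h1 ha h2
      · rintro rfl
        exact ⟨ha, rfl⟩
    rw [this, Finset.sum_singleton]
  have hg0 : ∀ s, (∀ a ∈ S, e a ≠ s) → g s = 0 := by
    intro s hs
    rw [hg]
    simp only
    rw [Finset.filter_eq_empty_iff.2 (fun a ha => hs a ha), Finset.sum_empty]
  have hgM : ∀ s, g s < 2 ^ M := by
    intro s
    by_cases h : ∃ a ∈ S, e a = s
    · obtain ⟨a, ha, rfl⟩ := h
      rw [hg1 a ha]
      exact hf a ha
    · push Not at h
      rw [hg0 s h]
      positivity
  have h1 : ∑ a ∈ S, f a * 2 ^ (M * e a) = ∑ s ∈ Finset.range n, g s * 2 ^ (M * s) := by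
    have h2 : ∑ a ∈ S, f a * 2 ^ (M * e a) = ∑ s ∈ S.image e, g s * 2 ^ (M * s) := by
      rw [Finset.sum_image he]
      exact Finset.sum_congr rfl fun a ha => by rw [hg1 a ha]
    rw [h2]
    refine Finset.sum_subset (fun s hs => ?_) (fun s _ hs => ?_)
    · obtain ⟨a, ha, rfl⟩ := Finset.mem_image.1 hs
      exact Finset.mem_range.2 (hn a ha)
    · rw [hg0 s, zero_mul]
      intro a ha h
      exact hs (Finset.mem_image.2 ⟨a, ha, h⟩)
  have h3 : ∑ a ∈ S, tm (f a) = ∑ s ∈ Finset.range n, tm (g s) := by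
    have h2 : ∑ a ∈ S, tm (f a) = ∑ s ∈ S.image e, tm (g s) := by
      rw [Finset.sum_image he]
      exact Finset.sum_congr rfl fun a ha => by rw [hg1 a ha]
    rw [h2]
    refine Finset.sum_subset (fun s hs => ?_) (fun s _ hs => ?_)
    · obtain ⟨a, ha, rfl⟩ := Finset.mem_image.1 hs
      exact Finset.mem_range.2 (hn a ha)
    · rw [hg0 s, tm_zero]
      intro a ha h
      exact hs (Finset.mem_image.2 ⟨a, ha, h⟩)
  rw [h1, h3]
  exact (range_sep M g n fun s _ => hgM s).2

end Pool.Agent.Q32.TM
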