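import Pool.Agent.Q32.TM.Basic

set_option autoImplicit false

/-!
# Thue-Morse values of polynomials at sums of far blocks
-/

namespace Pool.Agent.Q32.TM

open Finset

section

variable {Λ : Type*} [Fintype Λ] [DecidableEq Λ]

/-- multi-indices of degree at most `d` -/
def MI (Λ : Type*) [Fintype Λ] [DecidableEq Λ] (d : ℕ) : Finset (Λ → ℕ) :=
  (Fintype.piFinset fun _ : Λ => range (d + 1)).filter (fun m => ∑ l, m l ≤ d)

theorem mem_MI {d : ℕ} {m : Λ → ℕ} : m ∈ MI Λ d ↔ ∑ l, m l ≤ d := by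
  unfold MI
  rw [mem_filter, Fintype.mem_piFinset]
  constructor
  · rintro ⟨_, h⟩
    exact h
  · intro h
    refine ⟨fun l => ?_, h⟩
    have : m l ≤ ∑ l, m l := single_le_sum (f := m) (fun _ _ => Nat.zero_le _) (mem_univ l)
    rw [mem_range]
    omega

/-- the coefficients -/
def cf (c : ℕ → ℕ) (x : Λ → ℕ) (m : Λ → ℕ) : ℕ :=
  Nat.multinomial univ m * c (∑ l, m l) * ∏ l, x l ^ m l

theorem expand (c : ℕ → ℕ) (d : ℕ) (b : Λ → ℕ) :
    ∑ j ∈ range (d + 1), c j * (∑ l, b l) ^ j = ∑ m ∈ MI Λ d, cf c b m := by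
  have h1 : ∀ j ∈ range (d + 1), c j * (∑ l, b l) ^ j =
      ∑ m ∈ (MI Λ d).filter (fun m => ∑ l, m l = j), cf c b m := by
    intro j hj
    rw [Finset.sum_pow_eq_sum_piAntidiag, mul_sum]
    have h2 : (MI Λ d).filter (fun m => ∑ l, m l = j) = piAntidiag univ j := by
      ext m
      rw [mem_filter, mem_MI, mem_piAntidiag]
      rw [mem_range] at hj
      constructor
      · rintro ⟨_, h⟩
        exact ⟨h, fun i _ => mem_univ i⟩
      · rintro ⟨h, _⟩
        exact ⟨le_trans (le_of_eq h) (by omega), h⟩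
    rw [h2]
    refine sum_congr rfl fun m hm => ?_
    rw [mem_piAntidiag] at hm
    unfold cf
    rw [hm.1]
    simp only [Nat.cast_id]
    ring
  rw [sum_congr rfl h1]
  exact sum_fiberwise_of_maps_to (fun m hm => mem_range.2 (Nat.lt_succ_of_le (mem_MI.1 hm))) _

/-- the encoding of multi-indices -/
noncomputable def enc (d : ℕ) (m : Λ → ℕ) : ℕ := ∑ l, m l * (d + 1) ^ (Fintype.equivFin Λ l : ℕ)

theorem enc_inj (d : ℕ) : Set.InjOn (enc (Λ := Λ) d) (MI Λ d) := by
  intro m hm m' hm' h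
  rw [mem_coe, mem_MI] at hm hm'
  have hlt : ∀ {m : Λ → ℕ}, ∑ l, m l ≤ d → ∀ l, m l < d + 1 := by
    intro m hm l
    have : m l ≤ ∑ l, m l := single_le_sum (f := m) (fun _ _ => Nat.zero_le _) (mem_univ l)
    omega
  have hval : ∀ {m : Λ → ℕ} (hm : ∑ l, m l ≤ d), enc d m =
      (finFunctionFinEquiv (fun i : Fin (Fintype.card Λ) =>
        (⟨m ((Fintype.equivFin Λ).symm i), hlt hm _⟩ : Fin (d + 1))) : ℕ) := by
    intro m hm
    rw [finFunctionFinEquiv_apply]
    unfold enc
    rw [← Equiv.sum_comp (Fintype.equivFin Λ).symm]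
    refine sum_congr rfl fun i _ => ?_
    rw [Equiv.apply_symm_apply]
  rw [hval hm, hval hm'] at h
  have h2 := finFunctionFinEquiv.injective (Fin.val_injective h)
  funext l
  have h3 := congrFun h2 (Fintype.equivFin Λ l)
  simp only [Fin.mk.injEq, Equiv.symm_apply_apply] at h3
  exact h3

/-- the far point -/
noncomputable def far (d M : ℕ) (x : Λ → ℕ) : ℕ :=
  ∑ l, x l * 2 ^ (M * (d + 1) ^ (Fintype.equivFin Λ l : ℕ))

theorem tm_far (c : ℕ → ℕ) (d : ℕ) (x : Λ → ℕ) : ∃ M₀ : ℕ, ∀ M : ℕ, M₀ ≤ M →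
    tm (∑ j ∈ range (d + 1), c j * (far d M x) ^ j) = ∑ m ∈ MI Λ d, tm (cf c x m) := by
  obtain ⟨M₀, hM₀⟩ : ∃ M₀ : ℕ, ∀ m ∈ MI Λ d, cf c x m < 2 ^ M₀ := by
    refine ⟨(MI Λ d).sup (cf c x), fun m hm => ?_⟩
    exact lt_of_le_of_lt (le_sup (f := cf c x) hm) Nat.lt_two_pow_self
  refine ⟨M₀, fun M hM => ?_⟩
  unfold far
  rw [expand]
  have h1 : ∀ m ∈ MI Λ d, cf c (fun l => x l * 2 ^ (M * (d + 1) ^ (Fintype.equivFin Λ l : ℕ))) m =
      cf c x m * 2 ^ (M * enc d m) := by
    intro m _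
    unfold cf enc
    have h2 : ∏ l, (x l * 2 ^ (M * (d + 1) ^ (Fintype.equivFin Λ l : ℕ))) ^ m l =
        (∏ l, x l ^ m l) * 2 ^ (M * ∑ l, m l * (d + 1) ^ (Fintype.equivFin Λ l : ℕ)) := by
      rw [mul_sum, ← prod_pow_eq_pow_sum, ← prod_mul_distrib]
      refine prod_congr rfl fun l _ => ?_
      rw [mul_pow, ← pow_mul]
      congr 2
      ring
    rw [h2]
    ring
  rw [sum_congr rfl h1]
  exact sum_sep _ (enc d) (enc_inj d) M _ fun m hm =>
    (hM₀ m hm).trans_le (Nat.pow_le_pow_right (by norm_num) hM)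

omit [DecidableEq Λ] in
theorem cf_perm (c : ℕ → ℕ) (x : Λ → ℕ) (σ : Equiv.Perm Λ) (hσ : ∀ l, x (σ l) = x l) (m : Λ → ℕ) :
    cf c x (fun l => m (σ l)) = cf c x m := by
  unfold cf Nat.multinomial
  have h1 : ∑ l, m (σ l) = ∑ l, m l := Equiv.sum_comp σ m
  have h2 : ∏ l, (m (σ l)).factorial = ∏ l, (m l).factorial := Equiv.prod_comp σ fun l => (m l).factorial
  have h3 : ∏ l, x l ^ m (σ l) = ∏ l, x l ^ m l := by
    rw [← Equiv.prod_comp σ (fun l => x l ^ m l)]
    exact prod_congr rfl fun l _ => by rw [hσ]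
  rw [h1, h2, h3]

end

/-- sums of invariant functions modulo two under the action of a group of order a power of two -/
theorem fixed_sum {G α : Type*} [Group G] (hG : IsPGroup 2 G) [MulAction G α] [DecidableEq α]
    (s : Finset α) (hs : ∀ g : G, ∀ a ∈ s, g • a ∈ s) (w : α → ZMod 2)
    (hw : ∀ (g : G) (a : α), w (g • a) = w a) [DecidablePred fun a : α => ∀ g : G, g • a = a] :
    ∑ a ∈ s, w a = ∑ a ∈ s.filter (fun a => ∀ g : G, g • a = a), w a := by
  classical
  have key : ∀ t : Finset α, ∑ a ∈ t, w a = ((t.filter (fun a => w a = 1)).card : ZMod 2) := by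
    intro t
    rw [card_eq_sum_ones, sum_filter]
    push_cast
    refine sum_congr rfl fun a _ => ?_
    by_cases h : w a = 0
    · rw [if_neg (by rw [h]; decide), h]
    · have h1 : w a = 1 := by
        generalize w a = b at h
        fin_cases b
        · exact absurd rfl h
        · rfl
      rw [if_pos h1, h1]
  rw [key, key]
  set T := s.filter (fun a => w a = 1) with hT
  have hinv : ∀ (g : G) (a : T), g • (a : α) ∈ T := by
    intro g a
    obtain ⟨h1, h2⟩ := mem_filter.1 a.2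
    exact mem_filter.2 ⟨hs g _ h1, by rw [hw, h2]⟩
  let act : MulAction G T :=
    { smul := fun g a => ⟨g • (a : α), hinv g a⟩
      one_smul := fun a => Subtype.ext (one_smul G (a : α))
      mul_smul := fun g h a => Subtype.ext (mul_smul g h (a : α)) }
  have h1 := hG.card_modEq_card_fixedPoints T
  have h2 : Nat.card T = T.card := by simp
  have h3 : Nat.card (MulAction.fixedPoints G T) =
      ((s.filter (fun a => ∀ g : G, g • a = a)).filter (fun a => w a = 1)).card := by
    set F := (s.filter (fun a => ∀ g : G, g • a = a)).filter (fun a => w a = 1) with hF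
    have h4 : Nat.card F = F.card := by simp
    rw [← h4]
    refine Nat.card_congr
      { toFun := fun x => ⟨(x : T), ?_⟩
        invFun := fun y => ⟨⟨(y : α), ?_⟩, ?_⟩
        left_inv := fun x => by rfl
        right_inv := fun y => by rfl }
    · obtain ⟨⟨a, ha⟩, hx⟩ := x
      obtain ⟨h5, h6⟩ := mem_filter.1 ha
      refine mem_filter.2 ⟨mem_filter.2 ⟨h5, fun g => ?_⟩, h6⟩
      exact congrArg Subtype.val (hx g)
    · obtain ⟨a, ha⟩ := y
      obtain ⟨h5, h6⟩ := mem_filter.1 ha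
      exact mem_filter.2 ⟨(mem_filter.1 h5).1, h6⟩
    · intro g
      obtain ⟨a, ha⟩ := y
      obtain ⟨h5, h6⟩ := mem_filter.1 ha
      exact Subtype.ext ((mem_filter.1 h5).2 g)
  rw [h2, h3] at h1
  exact (ZMod.natCast_eq_natCast_iff _ _ _).2 h1

section

variable (r : ℕ) (Y : Finset ℕ)

/-- the blocks -/
abbrev Blk : Type := Y × ZMod (2 ^ r)

/-- the group of the rotations -/
abbrev Rot : Type := Y → Multiplicative (ZMod (2 ^ r))

/-- a rotation as a permutation of the blocks -/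
def rot (g : Rot r Y) : Equiv.Perm (Blk r Y) where
  toFun l := (l.1, l.2 + Multiplicative.toAdd (g l.1))
  invFun l := (l.1, l.2 - Multiplicative.toAdd (g l.1))
  left_inv l := by simp
  right_inv l := by simp

instance actRot : MulAction (Rot r Y) (Blk r Y → ℕ) where
  smul g m := fun l => m (rot r Y g l)
  one_smul m := by
    funext l
    change m (rot r Y 1 l) = m l
    congr 1
    simp [rot]
  mul_smul g h m := by
    funext l
    change m (rot r Y (g * h) l) = m (rot r Y h (rot r Y g l))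
    congr 1
    simp [rot, add_assoc]

theorem smul_def (g : Rot r Y) (m : Blk r Y → ℕ) : g • m = fun l => m (rot r Y g l) := rfl

instance : NeZero (2 ^ r) := ⟨by positivity⟩

theorem rot_pgroup : IsPGroup 2 (Rot r Y) := by
  refine IsPGroup.of_card (n := r * Fintype.card Y) ?_
  rw [Nat.card_fun]
  have : Nat.card (Multiplicative (ZMod (2 ^ r))) = 2 ^ r := by
    rw [Nat.card_congr Multiplicative.toAdd, Nat.card_zmod]
  rw [this, ← pow_mul]
  congr 2
  simp

/-- the single multi-indices -/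
def one (y : Y) : Blk r Y → ℕ := fun l => if l.1 = y then 1 else 0

theorem sum_blk (m : Blk r Y → ℕ) (h : ∀ l, m l = m (l.1, 0)) :
    ∑ l, m l = 2 ^ r * ∑ y : Y, m (y, 0) := by
  rw [Fintype.sum_prod_type, mul_sum]
  refine sum_congr rfl fun y _ => ?_
  rw [sum_congr rfl (fun u _ => h (y, u))]
  change ∑ _u : ZMod (2 ^ r), m (y, 0) = _
  rw [sum_const, card_univ, ZMod.card, smul_eq_mul]

theorem fixed_iff (m : Blk r Y → ℕ) : (∀ g : Rot r Y, g • m = m) ↔ ∀ l, m l = m (l.1, 0) := by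
  constructor
  · intro h l
    have h1 := congrFun (h (fun _ => Multiplicative.ofAdd l.2)) (l.1, 0)
    rw [smul_def] at h1
    simp only [rot, Equiv.coe_fn_mk, toAdd_ofAdd, zero_add] at h1
    exact h1
  · intro h g
    funext l
    rw [smul_def]
    simp only
    rw [h (rot r Y g l), h l]
    rfl

/-- the values of the coefficients at the single multi-indices -/
theorem cf_one (c : ℕ → ℕ) (y : Y) :
    cf c (fun l : Blk r Y => (l.1 : ℕ)) (one r Y y) = (2 ^ r).factorial * c (2 ^ r) * (y : ℕ) ^ (2 ^ r) := by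
  have h1 : ∑ l, one r Y y l = 2 ^ r := by
    rw [sum_blk r Y _ (fun l => rfl)]
    unfold one
    simp
  have h2 : ∏ l, (one r Y y l).factorial = 1 := by
    refine prod_eq_one fun l _ => ?_
    unfold one
    split_ifs <;> simp
  have h3 : ∏ l : Blk r Y, ((l.1 : ℕ)) ^ one r Y y l = (y : ℕ) ^ (2 ^ r) := by
    have h4 : ∀ l : Blk r Y, ((l.1 : ℕ)) ^ one r Y y l = (y : ℕ) ^ one r Y y l := by
      intro l
      unfold one
      split_ifs with h
      · rw [h]
      · simp
    rw [prod_congr rfl (fun l _ => h4 l), prod_pow_eq_pow_sum, h1]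
  unfold cf Nat.multinomial
  rw [h1, h2, h3, Nat.div_one]

/-- the multi-indices of degree less than `2 ^ (r + 1)` which are fixed -/
theorem fixed_small (m : Blk r Y → ℕ) (h : ∀ l, m l = m (l.1, 0)) (hlt : ∑ l, m l < 2 ^ (r + 1)) :
    m = 0 ∨ ∃ y : Y, m = one r Y y := by
  have h1 := sum_blk r Y m h
  have h2 : ∑ y : Y, m (y, 0) < 2 := by
    rw [h1, pow_succ] at hlt
    exact Nat.lt_of_mul_lt_mul_left hlt
  by_cases h0 : ∀ y : Y, m (y, 0) = 0
  · left
    funext l
    rw [h l, h0 l.1]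
    rfl
  · right
    push Not at h0
    obtain ⟨y, hy⟩ := h0
    refine ⟨y, ?_⟩
    have h3 := add_sum_erase univ (fun y : Y => m (y, 0)) (mem_univ y)
    have h4 : ∑ y' ∈ univ.erase y, m (y', 0) = 0 := by omega
    have h5 : m (y, 0) = 1 := by omega
    funext l
    rw [h l]
    unfold one
    split_ifs with hl
    · rw [hl, h5]
    · exact (sum_eq_zero_iff.1 h4) l.1 (mem_erase.2 ⟨hl, mem_univ _⟩)

omit r in
theorem sum_sub (F : Y → ZMod 2) (G : ℕ → ZMod 2) (h : ∀ y : Y, F y = G y) :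
    ∑ y, F y = ∑ z ∈ Y, G z := by
  rw [← sum_coe_sort Y G]
  exact sum_congr rfl fun y _ => h y

/-- **The Thue-Morse value of a polynomial at a far point.** -/
theorem main_expand (d : ℕ) (hd1 : 2 ^ r < d) (hd2 : d ≤ 2 ^ (r + 1)) (a : ℕ) :
    ∃ (X : ℕ → ℕ) (κ : ZMod 2), ∀ c : ℕ → ℕ, c d = a → ∃ M₀ : ℕ, ∀ M : ℕ, M₀ ≤ M →
      tm (∑ j ∈ range (d + 1), c j * (X M) ^ j) =
        tm (c 0) + ∑ z ∈ Y, tm ((2 ^ r).factorial * c (2 ^ r) * z ^ (2 ^ r)) + κ := by
  classical
  set x : Blk r Y → ℕ := fun l => (l.1 : ℕ) with hx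
  refine ⟨fun M => far d M x, ∑ m ∈ (MI (Blk r Y) d).filter (fun m => (∀ l, m l = m (l.1, 0)) ∧
    ∑ l, m l = d), tm (Nat.multinomial univ m * a * ∏ l, x l ^ m l), fun c hc => ?_⟩
  obtain ⟨M₀, hM₀⟩ := tm_far c d x
  refine ⟨M₀, fun M hM => ?_⟩
  rw [hM₀ M hM]
  -- the invariance
  have hinv : ∀ (g : Rot r Y) (m : Blk r Y → ℕ), cf c x (g • m) = cf c x m := by
    intro g m
    rw [smul_def]
    exact cf_perm c x (rot r Y g) (fun l => rfl) m
  have hmem : ∀ g : Rot r Y, ∀ m ∈ MI (Blk r Y) d, g • m ∈ MI (Blk r Y) d := by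
    intro g m hm
    rw [mem_MI] at hm ⊢
    rw [smul_def, Equiv.sum_comp (rot r Y g) m]
    exact hm
  rw [fixed_sum (rot_pgroup r Y) (MI (Blk r Y) d) hmem (fun m => tm (cf c x m))
    (fun g m => by rw [hinv])]
  have hfilt : (MI (Blk r Y) d).filter (fun m => ∀ g : Rot r Y, g • m = m) =
      (MI (Blk r Y) d).filter (fun m => ∀ l, m l = m (l.1, 0)) := by
    refine filter_congr fun m _ => fixed_iff r Y m
  rw [hfilt]
  -- splitting off the top degree
  have hsplit := sum_filter_add_sum_filter_not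
    ((MI (Blk r Y) d).filter (fun m => ∀ l, m l = m (l.1, 0))) (fun m => ∑ l, m l = d)
    (fun m => tm (cf c x m))
  rw [← hsplit, filter_filter, filter_filter, add_comm]
  congr 1
  · -- the small multi-indices
    have hset : (MI (Blk r Y) d).filter (fun m => (∀ l, m l = m (l.1, 0)) ∧ ¬ ∑ l, m l = d) =
        insert 0 (univ.image (one r Y)) := by
      ext m
      rw [mem_filter, mem_MI, mem_insert, mem_image]
      constructor
      · rintro ⟨h1, h2, h3⟩
        rcases fixed_small r Y m h2 (lt_of_lt_of_le (lt_of_le_of_ne h1 h3) hd2) with h4 | ⟨y, h4⟩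
        · exact Or.inl h4
        · exact Or.inr ⟨y, mem_univ y, h4.symm⟩
      · rintro (rfl | ⟨y, -, rfl⟩)
        · refine ⟨by simp, fun l => rfl, ?_⟩
          simp only [Pi.zero_apply, sum_const_zero]
          have : 0 < 2 ^ r := by positivity
          omega
        · have h1 : ∑ l, one r Y y l = 2 ^ r := by
            rw [sum_blk r Y _ (fun l => rfl)]
            unfold one
            simp
          rw [h1]
          exact ⟨hd1.le, fun l => rfl, hd1.ne⟩
    rw [hset, sum_insert, sum_image]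
    · have h0 : cf c x 0 = c 0 := by
        unfold cf Nat.multinomial
        simp
      rw [h0]
      congr 1
      exact sum_sub Y _ _ fun y => by rw [hx, cf_one]
    · intro y _ y' _ h
      have h1 := congrFun h (y, 0)
      unfold one at h1
      by_contra hne
      rw [if_pos rfl, if_neg hne] at h1
      exact one_ne_zero h1
    · intro h
      obtain ⟨y, -, h1⟩ := mem_image.1 h
      have h2 := congrFun h1 (y, 0)
      unfold one at h2
      simp at h2
  · refine sum_congr rfl fun m hm => ?_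
    rw [mem_filter] at hm
    unfold cf
    rw [hm.2.2, hc]

end

end Pool.Agent.Q32.TM
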