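import Pool.Agent.Q32.TM.Basic

set_option autoImplicit false

/-!
# Thue-Morse values of the multiples of powers: linear independence
-/

namespace Pool.Agent.Q32.TM

open Finset

/-- an odd `z` such that `n z ^ D` is slightly above a power of two -/
theorem exists_z (n D Z₀ : ℕ) (hn : 1 ≤ n) (hD : 1 ≤ D) :
    ∃ z b : ℕ, Z₀ ≤ z ∧ Odd z ∧ 2 ^ b ≤ n * z ^ D ∧ n * z ^ D < 2 ^ (b + 1) ∧
      (n - 1) * z ^ D < 2 ^ b := by
  classical
  -- the exponent
  set K := Z₀ + 4 * D * n + 4 with hK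
  obtain ⟨b, hb⟩ : ∃ b : ℕ, n * (2 * K + 1) ^ D < 2 ^ b := ⟨_, Nat.lt_two_pow_self⟩
  have hex : ∃ u : ℕ, 2 ^ b ≤ n * (2 * u + 1) ^ D := by
    refine ⟨2 ^ b, ?_⟩
    calc 2 ^ b ≤ (2 * 2 ^ b + 1) ^ 1 := by rw [pow_one]; omega
      _ ≤ (2 * 2 ^ b + 1) ^ D := Nat.pow_le_pow_right (by omega) hD
      _ ≤ n * (2 * 2 ^ b + 1) ^ D := Nat.le_mul_of_pos_left _ hn
  set u := Nat.find hex with hu
  have hu1 : 2 ^ b ≤ n * (2 * u + 1) ^ D := Nat.find_spec hex
  have huK : K < u := by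
    by_contra hcon
    push Not at hcon
    have : n * (2 * u + 1) ^ D ≤ n * (2 * K + 1) ^ D := by gcongr
    omega
  have hu2 : n * (2 * (u - 1) + 1) ^ D < 2 ^ b := by
    have := Nat.find_min hex (m := u - 1) (by omega)
    omega
  have hz : 2 * (u - 1) + 1 = 2 * u + 1 - 2 := by omega
  rw [hz] at hu2
  set z := 2 * u + 1 with hzdef
  have hz1 : 2 * K < z := by omega
  -- Bernoulli
  have hbern : z ^ D ≤ (z - 2) ^ D + 2 * D * z ^ (D - 1) := by
    have h1 : (z : ℝ) ^ D * (1 + D * (-2 / z)) ≤ ((z : ℝ) - 2) ^ D := by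
      have hz0 : (0 : ℝ) < z := by
        have : 0 < z := by omega
        exact_mod_cast this
      have h2 : (1 : ℝ) + D * (-2 / z) ≤ (1 + (-2 / z)) ^ D := by
        refine one_add_mul_le_pow ?_ D
        rw [le_div_iff₀ hz0]
        have : (2 : ℝ) ≤ z := by
          have : 2 ≤ z := by omega
          exact_mod_cast this
        linarith
      calc (z : ℝ) ^ D * (1 + D * (-2 / z)) ≤ (z : ℝ) ^ D * (1 + (-2 / z)) ^ D := by gcongr
        _ = ((z : ℝ) - 2) ^ D := by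
          rw [← mul_pow]
          congr 1
          field_simp
          ring
    have h3 : (z : ℝ) ^ D * (1 + D * (-2 / z)) = (z : ℝ) ^ D - 2 * D * z ^ (D - 1) := by
      obtain ⟨D', rfl⟩ : ∃ D', D = D' + 1 := ⟨D - 1, by omega⟩
      have hz0 : (z : ℝ) ≠ 0 := by
        have : z ≠ 0 := by omega
        exact_mod_cast this
      rw [Nat.add_sub_cancel, pow_succ]
      field_simp
      ring
    have h4 : ((z - 2 : ℕ) : ℝ) = (z : ℝ) - 2 := by
      rw [Nat.cast_sub (by omega)]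
      norm_num
    have h5 : (z : ℝ) ^ D ≤ ((z - 2 : ℕ) : ℝ) ^ D + 2 * D * z ^ (D - 1) := by
      rw [h4]
      linarith
    exact_mod_cast h5
  have hzD : z ^ D = z * z ^ (D - 1) := by
    rw [← pow_succ']
    congr 1
    omega
  have hKn : 4 * D * n ≤ z := by omega
  refine ⟨z, b, by omega, ⟨u, rfl⟩, hu1, ?_, ?_⟩
  · -- `n z ^ D ≤ 2 n (z - 2) ^ D`
    have h1 : 2 * (2 * D * z ^ (D - 1)) ≤ z ^ D := by
      rw [hzD]
      calc 2 * (2 * D * z ^ (D - 1)) = 4 * D * 1 * z ^ (D - 1) := by ring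
        _ ≤ 4 * D * n * z ^ (D - 1) := by gcongr
        _ ≤ z * z ^ (D - 1) := by gcongr
    have h2 : z ^ D ≤ 2 * (z - 2) ^ D := by omega
    calc n * z ^ D ≤ n * (2 * (z - 2) ^ D) := by gcongr
      _ = 2 * (n * (z - 2) ^ D) := by ring
      _ < 2 * 2 ^ b := by omega
      _ = 2 ^ (b + 1) := by ring
  · -- `(n - 1) z ^ D ≤ n (z - 2) ^ D`
    have h1 : n * (2 * D * z ^ (D - 1)) ≤ z ^ D := by
      rw [hzD]
      calc n * (2 * D * z ^ (D - 1)) ≤ 4 * D * n * z ^ (D - 1) := by nlinarith [Nat.zero_le (D * n * z ^ (D - 1))]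
        _ ≤ z * z ^ (D - 1) := by gcongr
    have h2 : (n - 1) * z ^ D + z ^ D = n * z ^ D := by
      rw [← Nat.succ_mul]
      congr 1
      omega
    have h3 : n * z ^ D ≤ n * (z - 2) ^ D + n * (2 * D * z ^ (D - 1)) := by
      rw [← mul_add]
      gcongr
    omega

/-- the binomial expansion, fully separated -/
theorem binom_sep (n z y D a : ℕ) (h : n * (z + y) ^ D < 2 ^ a) :
    tm (n * (z + 2 ^ a * y) ^ D) = ∑ j ∈ range (D + 1), tm (D.choose j * (n * (y ^ j * z ^ (D - j)))) := by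
  have h1 : n * (z + 2 ^ a * y) ^ D =
      ∑ j ∈ range (D + 1), (D.choose j * (n * (y ^ j * z ^ (D - j)))) * 2 ^ (a * j) := by
    rw [add_comm, add_pow, mul_sum]
    refine sum_congr rfl fun j _ => ?_
    rw [mul_pow, ← pow_mul]
    push_cast
    ring
  rw [h1]
  refine (range_sep a _ (D + 1) fun j hj => ?_).2
  refine lt_of_le_of_lt ?_ h
  rw [add_comm z y, add_pow, mul_sum]
  refine le_trans (le_of_eq ?_) (single_le_sum (f := fun m => n * (y ^ m * z ^ (D - m) * (D.choose m : ℕ)))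
    (fun _ _ => Nat.zero_le _) (mem_range.2 hj))
  ring

/-- the binomial expansion with the first two terms together -/
theorem binom_two (n z y D a : ℕ) (hD : 1 ≤ D) (h0 : n * z ^ D + 2 ^ a * (D * (n * (y * z ^ (D - 1)))) < 2 ^ (2 * a))
    (h : ∀ j, 2 ≤ j → j ≤ D → D.choose j * (n * (y ^ j * z ^ (D - j))) < 2 ^ a) :
    tm (n * (z + 2 ^ a * y) ^ D) = tm (n * z ^ D + 2 ^ a * (D * (n * (y * z ^ (D - 1))))) +
      ∑ j ∈ range (D - 1), tm (D.choose (j + 2) * (n * (y ^ (j + 2) * z ^ (D - (j + 2))))) := by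
  obtain ⟨E, rfl⟩ : ∃ E, D = E + 1 := ⟨D - 1, by omega⟩
  have h1 : n * (z + 2 ^ a * y) ^ (E + 1) =
      (n * z ^ (E + 1) + 2 ^ a * ((E + 1) * (n * (y * z ^ E)))) +
      2 ^ (2 * a) * ∑ j ∈ range E, ((E + 1).choose (j + 2) * (n * (y ^ (j + 2) * z ^ (E + 1 - (j + 2))))) *
        2 ^ (a * j) := by
    rw [add_comm z, add_pow, mul_sum, sum_range_succ', sum_range_succ', mul_sum]
    have h2 : ∑ k ∈ range E, n * ((2 ^ a * y) ^ (k + 1 + 1) * z ^ (E + 1 - (k + 1 + 1)) *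
        ((E + 1).choose (k + 1 + 1) : ℕ)) =
        ∑ j ∈ range E, 2 ^ (2 * a) * (((E + 1).choose (j + 2) * (n * (y ^ (j + 2) * z ^ (E + 1 - (j + 2))))) *
          2 ^ (a * j)) := by
      refine sum_congr rfl fun j _ => ?_
      rw [mul_pow, ← pow_mul]
      have : 2 ^ (a * (j + 1 + 1)) = 2 ^ (2 * a) * 2 ^ (a * j) := by
        rw [← pow_add]
        ring_nf
      rw [this]
      ring
    have h3 : E + 1 - (0 + 1) = E := by omega
    rw [h3]
    have h4 : (E + 1).choose (0 + 1) = E + 1 := by simp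
    rw [h4]
    simp only [Nat.cast_id] at h2 ⊢
    rw [h2]
    simp only [Nat.choose_zero_right, pow_zero, Nat.sub_zero, zero_add, pow_one]
    ring
  simp only [Nat.add_sub_cancel] at h0 h ⊢
  rw [h1, tm_add _ _ _ h0]
  congr 1
  exact (range_sep a _ E fun j hj => h (j + 2) (by omega) (by omega)).2

/-- **Independence.**  Let `O` be a nonempty finite set of odd numbers and let `D` be a power of two.  Then
the sum of the Thue-Morse values of `n z ^ D`, `n ∈ O`, is not zero for all `z`. -/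
theorem indep (r : ℕ) (O : Finset ℕ) (hO : O.Nonempty) (hodd : ∀ n ∈ O, Odd n)
    (h : ∀ z : ℕ, ∑ n ∈ O, tm (n * z ^ (2 ^ r)) = 0) : False := by
  classical
  set D := 2 ^ r with hDdef
  have hD : 1 ≤ D := Nat.one_le_two_pow
  set n := O.max' hO with hn
  have hnO : n ∈ O := O.max'_mem hO
  have hle : ∀ m ∈ O, m ≤ n := fun m hm => O.le_max' m hm
  have hn1 : 1 ≤ n := (hodd n hnO).pos
  obtain ⟨z, b, hz0, hzo, hb1, hb2, hb3⟩ := exists_z n D (2 ^ D * 3 * 2 ^ (2 * r + 4)) hn1 hD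
  -- the multiplier `y`
  set y := (n * z ^ (D - 1)) % 4 with hy
  have hodd1 : Odd (n * z ^ (D - 1)) := (hodd n hnO).mul (hzo.pow)
  have hy3 : y ≤ 3 := by omega
  have hyodd : Odd y := by
    obtain ⟨k, hk⟩ := hodd1
    rw [Nat.odd_iff]
    omega
  have hy1 : 1 ≤ y := hyodd.pos
  have hmod : (n * (y * z ^ (D - 1))) % 4 = 1 := by
    have e : n * (y * z ^ (D - 1)) = y * (n * z ^ (D - 1)) := by ring
    rw [e, Nat.mul_mod, ← hy]
    have hy4 : y = 1 ∨ y = 3 := by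
      obtain ⟨k, hk⟩ := hyodd
      omega
    rcases hy4 with h1 | h1 <;> rw [h1]
  have hz1 : 1 ≤ z := hzo.pos
  -- the exponent `b` is large
  have hZr : 2 ^ (2 * r + 1) ≤ 2 ^ b := by
    by_contra hcon
    push Not at hcon
    have h1 : n * z ^ D < 2 ^ (2 * r + 2) := by
      refine hb2.trans_le ?_
      refine Nat.pow_le_pow_right (by norm_num) ?_
      have : b < 2 * r + 1 := (Nat.pow_lt_pow_iff_right (by norm_num)).1 hcon
      omega
    have h2 : z ≤ n * z ^ D := by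
      calc z = 1 * z ^ 1 := by ring
        _ ≤ n * z ^ D := Nat.mul_le_mul hn1 (Nat.pow_le_pow_right hz1 hD)
    have h3 : 2 ^ (2 * r + 2) ≤ 2 ^ D * 3 * 2 ^ (2 * r + 4) := by
      calc 2 ^ (2 * r + 2) ≤ 2 ^ (2 * r + 4) := Nat.pow_le_pow_right (by norm_num) (by omega)
        _ ≤ 2 ^ D * 3 * 2 ^ (2 * r + 4) := Nat.le_mul_of_pos_left _ (by positivity)
    omega
  have hrb : 2 * r + 1 ≤ b := (Nat.pow_le_pow_iff_right (by norm_num)).1 hZr
  obtain ⟨a, rfl⟩ : ∃ a, b = a + r := ⟨b - r, by omega⟩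
  have har : r + 1 ≤ a := by omega
  have hpow : z ^ D = z * z ^ (D - 1) := by
    rw [← pow_succ']
    congr 1
    omega
  -- the conditions for the expansion
  have hshape : ∀ m : ℕ, 2 ^ a * (D * (m * (y * z ^ (D - 1)))) = 2 ^ (a + r) * (m * (y * z ^ (D - 1))) := by
    intro m
    rw [hDdef, pow_add]
    ring
  have hc1 : ∀ m ∈ O, m * z ^ D + 2 ^ a * (D * (m * (y * z ^ (D - 1)))) < 2 ^ (2 * a) := by
    intro m hm
    rw [hshape]
    have h1 : m * z ^ D ≤ n * z ^ D := Nat.mul_le_mul_right _ (hle m hm)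
    have h2 : m * (y * z ^ (D - 1)) ≤ n * (3 * z ^ (D - 1)) := by
      have := hle m hm
      gcongr
    have h3 : 2 ^ (2 * a) = 2 ^ (a + r) * 2 ^ (a - r) := by
      rw [← pow_add]
      congr 1
      omega
    rw [h3]
    have h4 : n * (3 * z ^ (D - 1)) + 2 ≤ 2 ^ (a - r) := by
      have h5 : 2 ^ (2 * r + 1) * (n * (3 * z ^ (D - 1)) + 2) ≤ 2 ^ (2 * r + 1) * 2 ^ (a - r) := by
        have h6 : 2 ^ (2 * r + 1) * 2 ^ (a - r) = 2 ^ (a + r + 1) := by
          rw [← pow_add]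
          congr 1
          omega
        rw [h6]
        refine le_trans ?_ hb2.le
        rw [hpow]
        have h7 : 2 ^ (2 * r + 1) * 5 ≤ z := by
          refine le_trans ?_ hz0
          have e1 : 2 ^ (2 * r + 4) = 2 ^ (2 * r + 1) * 8 := by
            rw [show 2 * r + 4 = 2 * r + 1 + 3 by ring, pow_add]
            norm_num
          rw [e1]
          have e2 : 1 ≤ 2 ^ D := Nat.one_le_two_pow
          nlinarith [Nat.zero_le (2 ^ (2 * r + 1))]
        have h8 : 1 ≤ n * z ^ (D - 1) := Nat.mul_pos hn1 (by positivity)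
        calc 2 ^ (2 * r + 1) * (n * (3 * z ^ (D - 1)) + 2) ≤ 2 ^ (2 * r + 1) * 5 * (n * z ^ (D - 1)) := by
              nlinarith [Nat.zero_le (2 ^ (2 * r + 1))]
          _ ≤ z * (n * z ^ (D - 1)) := Nat.mul_le_mul_right _ h7
          _ = n * (z * z ^ (D - 1)) := by ring
      exact Nat.le_of_mul_le_mul_left h5 (by positivity)
    have h9 : n * z ^ D < 2 ^ (a + r) * 2 := by rw [← pow_succ]; exact hb2
    have h10 : 2 ^ (a + r) * (n * (3 * z ^ (D - 1)) + 2) ≤ 2 ^ (a + r) * 2 ^ (a - r) :=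
      Nat.mul_le_mul_left _ h4
    have h11 : 2 ^ (a + r) * (m * (y * z ^ (D - 1))) ≤ 2 ^ (a + r) * (n * (3 * z ^ (D - 1))) :=
      Nat.mul_le_mul_left _ h2
    have h12 : 2 ^ (a + r) * (n * (3 * z ^ (D - 1)) + 2) =
      2 ^ (a + r) * (n * (3 * z ^ (D - 1))) + 2 ^ (a + r) * 2 := by ring
    omega
  have hc2 : ∀ m ∈ O, ∀ j, 2 ≤ j → j ≤ D → D.choose j * (m * (y ^ j * z ^ (D - j))) < 2 ^ a := by
    intro m hm j hj2 hjD
    have h1 : D.choose j * (m * (y ^ j * z ^ (D - j))) ≤ 2 ^ D * (n * (3 ^ j * z ^ (D - j))) := by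
      have h2 := hle m hm
      have h3 := Nat.choose_le_two_pow D j
      gcongr
    refine lt_of_le_of_lt h1 ?_
    have h4 : 2 ^ D * 3 ^ j * 2 ^ (r + 1) ≤ z ^ j := by
      calc 2 ^ D * 3 ^ j * 2 ^ (r + 1) ≤ (2 ^ D) ^ j * 3 ^ j * (2 ^ (2 * r + 4)) ^ j := by
            have e1 : 2 ^ D ≤ (2 ^ D) ^ j := Nat.le_self_pow (by omega) _
            have e2 : 2 ^ (r + 1) ≤ (2 ^ (2 * r + 4)) ^ j :=
              (Nat.pow_le_pow_right (by norm_num) (by omega)).trans (Nat.le_self_pow (by omega) _)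
            gcongr
        _ = (2 ^ D * 3 * 2 ^ (2 * r + 4)) ^ j := by rw [mul_pow, mul_pow]
        _ ≤ z ^ j := Nat.pow_le_pow_left hz0 _
    have h5 : 2 ^ (r + 1) * (2 ^ D * (n * (3 ^ j * z ^ (D - j)))) < 2 ^ (r + 1) * 2 ^ a := by
      have h6 : 2 ^ (r + 1) * 2 ^ a = 2 ^ (a + r + 1) := by
        rw [← pow_add]
        congr 1
        ring
      rw [h6]
      refine lt_of_le_of_lt ?_ hb2
      have h7 : z ^ D = z ^ j * z ^ (D - j) := by
        rw [← pow_add]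
        congr 1
        omega
      rw [h7]
      calc 2 ^ (r + 1) * (2 ^ D * (n * (3 ^ j * z ^ (D - j)))) =
          n * ((2 ^ D * 3 ^ j * 2 ^ (r + 1)) * z ^ (D - j)) := by ring
        _ ≤ n * (z ^ j * z ^ (D - j)) := by gcongr
    exact Nat.lt_of_mul_lt_mul_left h5
  -- a very large exponent
  obtain ⟨a₂, ha₂⟩ : ∃ a₂ : ℕ, n * (z + y) ^ D < 2 ^ a₂ := ⟨_, Nat.lt_two_pow_self⟩
  have hsep : ∀ m ∈ O, tm (m * (z + 2 ^ a₂ * y) ^ D) = tm (m * z ^ D) + tm (m * (y * z ^ (D - 1))) +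
      ∑ j ∈ range (D - 1), tm (D.choose (j + 2) * (m * (y ^ (j + 2) * z ^ (D - (j + 2))))) := by
    intro m hm
    have h1 : m * (z + y) ^ D < 2 ^ a₂ := lt_of_le_of_lt (Nat.mul_le_mul_right _ (hle m hm)) ha₂
    rw [binom_sep m z y D a₂ h1]
    obtain ⟨E, hE⟩ : ∃ E, D = E + 1 := ⟨D - 1, by omega⟩
    have h2 : tm (m * (y * z ^ (D - 1))) = tm (D.choose 1 * (m * (y ^ 1 * z ^ (D - 1)))) := by
      rw [Nat.choose_one_right, pow_one, hDdef, tm_pow_mul]
    rw [h2]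
    have h3 : D + 1 = (D - 1) + 1 + 1 := by omega
    rw [h3, sum_range_succ', sum_range_succ']
    simp only [Nat.choose_zero_right, pow_zero, Nat.sub_zero, zero_add, pow_one, one_mul]
    ring
  have hov : ∀ m ∈ O, tm (m * (z + 2 ^ a * y) ^ D) = tm (m * z ^ D + 2 ^ (a + r) * (m * (y * z ^ (D - 1)))) +
      ∑ j ∈ range (D - 1), tm (D.choose (j + 2) * (m * (y ^ (j + 2) * z ^ (D - (j + 2))))) := by
    intro m hm
    rw [binom_two m z y D a hD (hc1 m hm) (hc2 m hm), hshape]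
  have hs1 := h (z + 2 ^ a * y)
  have hs2 := h (z + 2 ^ a₂ * y)
  rw [sum_congr rfl hov, sum_add_distrib] at hs1
  rw [sum_congr rfl hsep, sum_add_distrib, sum_add_distrib] at hs2
  -- the smaller elements
  have hsmall : ∀ m ∈ O.erase n, tm (m * z ^ D + 2 ^ (a + r) * (m * (y * z ^ (D - 1)))) =
      tm (m * z ^ D) + tm (m * (y * z ^ (D - 1))) := by
    intro m hm
    obtain ⟨hm1, hm2⟩ := mem_erase.1 hm
    have h1 : m ≤ n - 1 := by
      have := hle m hm2
      omega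
    exact tm_add _ _ _ (lt_of_le_of_lt (Nat.mul_le_mul_right _ h1) hb3)
  rw [← add_sum_erase O _ hnO, sum_congr rfl hsmall, sum_add_distrib] at hs1
  rw [← add_sum_erase O (fun m => tm (m * z ^ D)) hnO,
    ← add_sum_erase O (fun m => tm (m * (y * z ^ (D - 1)))) hnO] at hs2
  -- the largest element
  have hkey : tm (n * z ^ D + 2 ^ (a + r) * (n * (y * z ^ (D - 1)))) =
      tm (n * z ^ D) + tm (n * (y * z ^ (D - 1))) := by
    linear_combination hs1 - hs2
  obtain ⟨ρ, hρ⟩ : ∃ ρ, n * z ^ D = ρ + 2 ^ (a + r) * 1 := ⟨n * z ^ D - 2 ^ (a + r), by omega⟩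
  have hρ2 : ρ < 2 ^ (a + r) := by
    rw [pow_succ] at hb2
    omega
  set m := n * (y * z ^ (D - 1)) with hm
  have e1 : n * z ^ D + 2 ^ (a + r) * m = ρ + 2 ^ (a + r) * (m + 1) := by
    rw [hρ]; ring
  rw [e1, tm_add _ _ _ hρ2, hρ, tm_add _ _ _ hρ2] at hkey
  obtain ⟨q, hq⟩ : ∃ q, m = 2 * (2 * q) + 1 := ⟨m / 4, by omega⟩
  have e2 : m + 1 = 2 * (2 * q + 1) := by omega
  rw [e2, tm_even, tm_odd, hq, tm_odd, tm_even] at hkey
  have e3 : tm 1 = 1 := by
    have := tm_odd 0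
    rw [tm_zero] at this
    simpa using this
  rw [e3] at hkey
  have e4 : (1 : ZMod 2) = 0 := by linear_combination -hkey
  exact absurd e4 (by decide)

end Pool.Agent.Q32.TM
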