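import Pool.Agent.Q32.TM.Key

set_option autoImplicit false

/-!
# Thue-Morse values of the multiples of powers: all vectors are sums
-/

namespace Pool.Agent.Q32.TM

open Finset

theorem zmod_two (a : ZMod 2) (h : a ≠ 0) : a = 1 := by
  fin_cases a
  · exact absurd rfl h
  · rfl

/-- **All vectors are sums of Thue-Morse vectors.** -/
theorem span (r k : ℕ) (ν : Fin k → ℕ) (hpos : ∀ i, 0 < ν i)
    (hne : ∀ i j, i ≠ j → ∀ s : ℕ, ν i ≠ 2 ^ s * ν j) (w : Fin k → ZMod 2) :
    ∃ Y : Finset ℕ, ∀ i, ∑ z ∈ Y, tm (ν i * z ^ (2 ^ r)) = w i := by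
  classical
  set v : ℕ → (Fin k → ZMod 2) := fun z i => tm (ν i * z ^ (2 ^ r)) with hv
  have hodd : ∀ i, ∃ e o : ℕ, Odd o ∧ ν i = 2 ^ e * o := by
    intro i
    obtain ⟨e, o, h1, h2⟩ := Nat.exists_eq_two_pow_mul_odd (hpos i).ne'
    exact ⟨e, o, h1, h2⟩
  choose e o ho hν using hodd
  have hinj : ∀ i j, o i = o j → i = j := by
    intro i j h
    by_contra hij
    rcases le_total (e i) (e j) with h1 | h1
    · refine hne j i (Ne.symm hij) (e j - e i) ?_
      rw [hν i, hν j, ← mul_assoc, ← pow_add, h]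
      congr 2
      omega
    · refine hne i j hij (e i - e j) ?_
      rw [hν i, hν j, ← mul_assoc, ← pow_add, h]
      congr 2
      omega
  have htop : Submodule.span (ZMod 2) (Set.range v) = ⊤ := by
    by_contra hcon
    obtain ⟨φ, hφ0, hφ⟩ := Submodule.exists_le_ker_of_lt_top _ (lt_top_iff_ne_top.2 hcon)
    set a : Fin k → ZMod 2 := fun i => φ (fun j => if i = j then 1 else 0) with ha
    have hrep : ∀ x : Fin k → ZMod 2, φ x = ∑ i, x i * a i := by
      intro x
      rw [LinearMap.pi_apply_eq_sum_univ φ x]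
      rfl
    set S : Finset (Fin k) := univ.filter (fun i => a i ≠ 0) with hS
    have hSne : S.Nonempty := by
      rw [Finset.nonempty_iff_ne_empty]
      intro h0
      apply hφ0
      refine LinearMap.ext fun x => ?_
      rw [hrep, LinearMap.zero_apply]
      refine sum_eq_zero fun i _ => ?_
      have : i ∉ S := by rw [h0]; exact notMem_empty i
      rw [hS, mem_filter] at this
      push Not at this
      rw [this (mem_univ i), mul_zero]
    refine indep r (S.image o) (hSne.image o) ?_ ?_
    · intro n hn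
      obtain ⟨i, -, rfl⟩ := mem_image.1 hn
      exact ho i
    · intro z
      rw [sum_image (fun i _ j _ h => hinj i j h)]
      have h1 : φ (v z) = 0 := hφ (Submodule.subset_span ⟨z, rfl⟩)
      rw [hrep] at h1
      rw [← h1, hS, sum_filter]
      refine sum_congr rfl fun i _ => ?_
      have h2 : v z i = tm (o i * z ^ 2 ^ r) := by
        rw [hv]
        simp only
        rw [hν i, mul_assoc, tm_pow_mul]
      rw [h2]
      by_cases h3 : a i = 0
      · rw [if_neg (not_not.2 h3), h3, mul_zero]
      · rw [if_pos h3, zmod_two _ h3, mul_one]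
  have hw : w ∈ Submodule.span (ZMod 2) (Set.range v) := by
    rw [htop]
    exact Submodule.mem_top
  rw [Finsupp.mem_span_range_iff_exists_finsupp] at hw
  obtain ⟨c, hc⟩ := hw
  refine ⟨c.support, fun i => ?_⟩
  rw [← hc, Finsupp.sum, Finset.sum_apply]
  refine sum_congr rfl fun z hz => ?_
  rw [Pi.smul_apply, zmod_two _ (Finsupp.mem_support_iff.1 hz), one_smul]

end Pool.Agent.Q32.TM
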