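import Pool.Agent.Q32.TM.Expand
import Pool.Agent.Q32.TM.Span

set_option autoImplicit false

/-!
# Thue-Morse values along polynomials: words up to a constant
-/

namespace Pool.Agent.Q32.TM

open Finset Polynomial Filter

/-- a polynomial with positive leading coefficient is positive at large integers -/
theorem ev_pos (Q : ℤ[X]) (e : ℕ) (h1 : Q.natDegree ≤ e) (h2 : 0 < Q.coeff e) :
    ∃ N : ℕ, ∀ n : ℕ, N ≤ n → 0 < Q.eval (n : ℤ) := by
  set S : ℤ := ∑ i ∈ range e, |Q.coeff i| with hS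
  have hS0 : 0 ≤ S := sum_nonneg fun _ _ => abs_nonneg _
  refine ⟨S.toNat + 1, fun n hn => ?_⟩
  have hnS : S + 1 ≤ (n : ℤ) := by omega
  have hn0 : (0 : ℤ) < n := by omega
  rw [eval_eq_sum_range' (Nat.lt_succ_of_le h1), sum_range_succ]
  have h3 : |∑ i ∈ range e, Q.coeff i * (n : ℤ) ^ i| * n ≤ S * (n : ℤ) ^ e := by
    calc |∑ i ∈ range e, Q.coeff i * (n : ℤ) ^ i| * n
        ≤ (∑ i ∈ range e, |Q.coeff i * (n : ℤ) ^ i|) * n := by
          gcongr
          exact abs_sum_le_sum_abs _ _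
      _ = ∑ i ∈ range e, |Q.coeff i| * (n : ℤ) ^ (i + 1) := by
          rw [sum_mul]
          refine sum_congr rfl fun i _ => ?_
          rw [abs_mul, abs_of_nonneg (by positivity : (0 : ℤ) ≤ (n : ℤ) ^ i)]
          ring
      _ ≤ ∑ i ∈ range e, |Q.coeff i| * (n : ℤ) ^ e := by
          refine sum_le_sum fun i hi => ?_
          rw [mem_range] at hi
          exact mul_le_mul_of_nonneg_left (pow_le_pow_right₀ (by omega) (by omega)) (abs_nonneg _)
      _ = S * (n : ℤ) ^ e := by rw [hS, sum_mul]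
  have h4 := neg_abs_le (∑ i ∈ range e, Q.coeff i * (n : ℤ) ^ i)
  have h5 : (0 : ℤ) < (n : ℤ) ^ e := by positivity
  by_contra hcon
  push Not at hcon
  have h6 : (n : ℤ) ^ e ≤ Q.coeff e * (n : ℤ) ^ e := by nlinarith
  nlinarith

theorem coeff_hasse (P : ℤ[X]) (j : ℕ) (hj : j ≤ P.natDegree) (hP : 0 < P.leadingCoeff) :
    0 < (hasseDeriv j P).coeff (P.natDegree - j) := by
  rw [hasseDeriv_coeff, Nat.sub_add_cancel hj]
  have h1 : 0 < P.natDegree.choose j := Nat.choose_pos hj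
  have h2 : (0 : ℤ) < (P.natDegree.choose j : ℤ) := by exact_mod_cast h1
  exact mul_pos h2 hP

/-- all Taylor coefficients are positive at large integers -/
theorem taylor_pos (P : ℤ[X]) (hP : 0 < P.leadingCoeff) :
    ∃ N : ℕ, ∀ n : ℕ, N ≤ n → ∀ j : ℕ, j ≤ P.natDegree → 0 < (taylor (n : ℤ) P).coeff j := by
  have h1 : ∀ j : ℕ, ∃ N : ℕ, ∀ n : ℕ, N ≤ n → j ≤ P.natDegree → 0 < (taylor (n : ℤ) P).coeff j := by
    intro j
    by_cases hj : j ≤ P.natDegree
    · obtain ⟨N, hN⟩ := ev_pos (hasseDeriv j P) (P.natDegree - j) (natDegree_hasseDeriv_le P j)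
        (coeff_hasse P j hj hP)
      exact ⟨N, fun n hn _ => by rw [taylor_coeff]; exact hN n hn⟩
    · exact ⟨0, fun n _ h => absurd h hj⟩
  choose N hN using h1
  refine ⟨(range (P.natDegree + 1)).sup N, fun n hn j hj => hN j n ?_ hj⟩
  exact (le_sup (f := N) (mem_range.2 (Nat.lt_succ_of_le hj))).trans hn

theorem eval_taylor_sum (P : ℤ[X]) (a b : ℤ) :
    P.eval (a + b) = ∑ j ∈ range (P.natDegree + 1), (taylor a P).coeff j * b ^ j := by
  rw [add_comm, ← taylor_eval, eval_eq_sum_range, natDegree_taylor]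

/-- monotone at large integers -/
theorem ev_mono (Q : ℤ[X]) (hQ : 0 < Q.leadingCoeff) (hd : 1 ≤ Q.natDegree) :
    ∃ N : ℕ, ∀ n : ℕ, N ≤ n → Q.eval (n : ℤ) < Q.eval ((n + 1 : ℕ) : ℤ) := by
  obtain ⟨N, hN⟩ := taylor_pos Q hQ
  refine ⟨N, fun n hn => ?_⟩
  have h1 := eval_taylor_sum Q (n : ℤ) 1
  rw [sum_range_succ'] at h1
  have h2 : (taylor (n : ℤ) Q).coeff 0 * 1 ^ 0 = Q.eval (n : ℤ) := by
    rw [pow_zero, mul_one, taylor_coeff_zero]
  rw [h2] at h1
  have h3 : 0 < ∑ k ∈ range Q.natDegree, (taylor (n : ℤ) Q).coeff (k + 1) * 1 ^ (k + 1) := by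
    refine sum_pos (fun k hk => ?_) ⟨0, mem_range.2 hd⟩
    rw [one_pow, mul_one]
    rw [mem_range] at hk
    exact hN n hn (k + 1) (by omega)
  push_cast
  linarith

/-- the ratio of the values at near large integers is less than two -/
theorem ev_ratio (Q : ℤ[X]) (hQ : 0 < Q.leadingCoeff) (k : ℕ) :
    ∃ N : ℕ, ∀ n : ℕ, N ≤ n → Q.eval ((n + k : ℕ) : ℤ) < 2 * Q.eval (n : ℤ) := by
  have h1 : (taylor (k : ℤ) Q).coeff Q.natDegree = Q.leadingCoeff := coeff_taylor_natDegree _ _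
  obtain ⟨N, hN⟩ := ev_pos (C 2 * Q - taylor (k : ℤ) Q) Q.natDegree (by
    refine (natDegree_sub_le _ _).trans ?_
    rw [natDegree_taylor]
    exact max_le (natDegree_C_mul_le _ _) le_rfl) (by
    rw [coeff_sub, coeff_C_mul, h1, coeff_natDegree]
    linarith)
  refine ⟨N, fun n hn => ?_⟩
  have h2 := hN n hn
  rw [eval_sub, eval_mul, eval_C, taylor_eval] at h2
  push_cast
  linarith

/-- the leading coefficient of a polynomial with nonnegative values is positive -/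
theorem lead_pos (P : ℤ[X]) (hd : 1 ≤ P.natDegree) (hP : ∀ n : ℕ, 0 ≤ P.eval (n : ℤ)) :
    0 < P.leadingCoeff := by
  by_contra hcon
  push Not at hcon
  have hP0 : P ≠ 0 := by
    rintro rfl
    simp at hd
  have h1 : P.leadingCoeff ≠ 0 := leadingCoeff_ne_zero.2 hP0
  have h2 : P.leadingCoeff < 0 := lt_of_le_of_ne hcon h1
  obtain ⟨N, hN⟩ := ev_pos (-P) P.natDegree (by rw [natDegree_neg]) (by
    rw [coeff_neg, coeff_natDegree]
    linarith)
  have h3 := hN N le_rfl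
  rw [eval_neg] at h3
  have h4 := hP N
  linarith

/-- **Words up to a constant.** -/
theorem words (P : ℤ[X]) (hd : 2 ≤ P.natDegree) (hP : ∀ n : ℕ, 0 ≤ P.eval (n : ℤ)) (k : ℕ)
    (w : Fin k → ZMod 2) (B : ℕ) :
    ∃ m : ℕ, B ≤ m ∧ ∃ κ : ZMod 2, ∀ i : Fin k, tm ((P.eval ((m + i : ℕ) : ℤ)).toNat) = w i + κ := by
  classical
  have hlead := lead_pos P (by omega) hP
  set d := P.natDegree with hdd
  set r := Nat.log 2 (d - 1) with hr
  have hr1 : 2 ^ r < d := by
    have := Nat.pow_log_le_self 2 (x := d - 1) (by omega)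
    rw [← hr] at this
    omega
  have hr2 : d ≤ 2 ^ (r + 1) := by
    have := Nat.lt_pow_succ_log_self (b := 2) (by norm_num) (d - 1)
    rw [← hr, Nat.succ_eq_add_one] at this
    omega
  set D := 2 ^ r with hD
  -- the derivative of order `D`
  set Q : ℤ[X] := hasseDeriv D P with hQ
  have hQc : 0 < Q.coeff (d - D) := coeff_hasse P D hr1.le hlead
  have hQd : Q.natDegree = d - D :=
    le_antisymm (natDegree_hasseDeriv_le P D) (le_natDegree_of_ne_zero hQc.ne')
  have hQl : 0 < Q.leadingCoeff := by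
    rw [leadingCoeff, hQd]
    exact hQc
  obtain ⟨N₁, hN₁⟩ := taylor_pos P hlead
  obtain ⟨N₂, hN₂⟩ := ev_mono Q hQl (by omega)
  obtain ⟨N₃, hN₃⟩ := ev_ratio Q hQl k
  set n₀ := max (max N₁ N₂) (max N₃ B) with hn₀
  have hn1 : N₁ ≤ n₀ := (le_max_left _ _).trans (le_max_left _ _)
  have hn2 : N₂ ≤ n₀ := (le_max_right _ _).trans (le_max_left _ _)
  have hn3 : N₃ ≤ n₀ := (le_max_left _ _).trans (le_max_right _ _)
  have hnB : B ≤ n₀ := (le_max_right _ _).trans (le_max_right _ _)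
  -- monotonicity
  have hmono : ∀ i j : ℕ, i ≤ j → Q.eval ((n₀ + i : ℕ) : ℤ) ≤ Q.eval ((n₀ + j : ℕ) : ℤ) := by
    intro i j hij
    induction j, hij using Nat.le_induction with
    | base => exact le_rfl
    | succ j _ ih => exact ih.trans (hN₂ (n₀ + j) (by omega)).le
  have hstrict : ∀ i j : ℕ, i < j → Q.eval ((n₀ + i : ℕ) : ℤ) < Q.eval ((n₀ + j : ℕ) : ℤ) := by
    intro i j hij
    exact (hN₂ (n₀ + i) (by omega)).trans_le (hmono (i + 1) j hij)
  have hcoefQ : ∀ n : ℕ, (taylor (n : ℤ) P).coeff D = Q.eval (n : ℤ) := fun n => taylor_coeff _ _ _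
  have hQpos : ∀ i : ℕ, 0 < Q.eval ((n₀ + i : ℕ) : ℤ) := by
    intro i
    rw [← hcoefQ]
    exact hN₁ _ (by omega) D hr1.le
  -- the coefficients
  set c : Fin k → ℕ → ℕ := fun i j => ((taylor ((n₀ + i : ℕ) : ℤ) P).coeff j).toNat with hc
  have hcd : ∀ i, c i d = P.leadingCoeff.toNat := by
    intro i
    rw [hc]
    simp only
    rw [hdd, coeff_taylor_natDegree]
  have hcD : ∀ i : Fin k, (c i D : ℤ) = Q.eval ((n₀ + i : ℕ) : ℤ) := by
    intro i
    rw [hc]
    simp only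
    rw [hcoefQ, Int.toNat_of_nonneg (hQpos i).le]
  -- the target
  obtain ⟨Y, hY⟩ := span r k (fun i => D.factorial * c i D) (by
    intro i
    refine Nat.mul_pos (Nat.factorial_pos _) ?_
    have := hQpos i
    rw [← hcD] at this
    exact_mod_cast this) (by
    intro i j hij s h
    have h1 : c i D = 2 ^ s * c j D := by
      have h2 : D.factorial * c i D = D.factorial * (2 ^ s * c j D) := by
        rw [h]
        ring
      exact Nat.eq_of_mul_eq_mul_left (Nat.factorial_pos _) h2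
    have h2 : Q.eval ((n₀ + i : ℕ) : ℤ) = 2 ^ s * Q.eval ((n₀ + j : ℕ) : ℤ) := by
      rw [← hcD, ← hcD, h1]
      push_cast
      ring
    have hj0 := hQpos j
    have hs1 : (1 : ℤ) ≤ 2 ^ s := one_le_pow₀ (by norm_num)
    rcases lt_or_gt_of_ne (fun h3 => hij (Fin.ext h3) : (i : ℕ) ≠ j) with h3 | h3
    · have h4 := hstrict i j h3
      nlinarith
    · have h4 := hstrict j i h3
      rcases Nat.eq_zero_or_pos s with rfl | h5
      · rw [pow_zero, one_mul] at h2
        linarith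
      · have h6 : (2 : ℤ) ≤ 2 ^ s := by
          calc (2 : ℤ) = 2 ^ 1 := by norm_num
            _ ≤ 2 ^ s := pow_le_pow_right₀ (by norm_num) h5
        have h7 : Q.eval ((n₀ + i : ℕ) : ℤ) ≤ Q.eval ((n₀ + k : ℕ) : ℤ) := hmono i k i.2.le
        have h8 := hN₃ n₀ hn3
        have h9 : Q.eval ((n₀ + 0 : ℕ) : ℤ) ≤ Q.eval ((n₀ + j : ℕ) : ℤ) := hmono 0 j (Nat.zero_le _)
        rw [add_zero] at h9
        nlinarith) (fun i => w i + tm (c i 0))
  obtain ⟨X, κ, hX⟩ := main_expand r Y d hr1 hr2 P.leadingCoeff.toNat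
  choose M₀ hM₀ using fun i => hX (c i) (hcd i)
  set M := univ.sup M₀ with hM
  refine ⟨n₀ + X M, by omega, κ, fun i => ?_⟩
  have h1 := hM₀ i M (le_sup (mem_univ i))
  have h2 : (P.eval ((n₀ + X M + i : ℕ) : ℤ)).toNat = ∑ j ∈ range (d + 1), c i j * (X M) ^ j := by
    have e1 : ((n₀ + X M + i : ℕ) : ℤ) = ((n₀ + i : ℕ) : ℤ) + (X M : ℤ) := by
      push_cast
      ring
    rw [e1, eval_taylor_sum]
    have e2 : ∑ j ∈ range (P.natDegree + 1), (taylor ((n₀ + i : ℕ) : ℤ) P).coeff j * (X M : ℤ) ^ j =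
        ((∑ j ∈ range (d + 1), c i j * (X M) ^ j : ℕ) : ℤ) := by
      rw [Nat.cast_sum]
      refine sum_congr rfl fun j hj => ?_
      rw [mem_range] at hj
      rw [Nat.cast_mul, Nat.cast_pow]
      have e3 : (c i j : ℤ) = (taylor ((n₀ + i : ℕ) : ℤ) P).coeff j := by
        rw [hc]
        simp only
        exact Int.toNat_of_nonneg (hN₁ _ (by omega) j (by omega)).le
      rw [← e3]
    rw [e2, Int.toNat_natCast]
  rw [h2, h1, hY i]
  have h3 : tm (c i 0) + tm (c i 0) = 0 := CharTwo.add_self_eq_zero _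
  linear_combination h3

/-- **All words.** -/
theorem all_words (P : ℤ[X]) (hd : 2 ≤ P.natDegree) (hP : ∀ n : ℕ, 0 ≤ P.eval (n : ℤ)) (k : ℕ)
    (w : Fin k → ZMod 2) (B : ℕ) :
    ∃ m : ℕ, B ≤ m ∧ ∀ i : Fin k, tm ((P.eval ((m + i : ℕ) : ℤ)).toNat) = w i := by
  obtain ⟨m, hm, κ, h⟩ := words P hd hP (k + k)
    (fun i => if h : (i : ℕ) < k then w ⟨i, h⟩ else w ⟨i - k, by omega⟩ + 1) B
  by_cases hκ : κ = 0
  · refine ⟨m, hm, fun i => ?_⟩
    have h1 := h ⟨i, by omega⟩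
    simp only [i.2, dif_pos, Fin.eta] at h1
    rw [h1, hκ, add_zero]
  · refine ⟨m + k, by omega, fun i => ?_⟩
    have h1 := h ⟨k + i, by omega⟩
    have h2 : ¬ (k + (i : ℕ) < k) := by omega
    simp only [h2, dif_neg, not_false_eq_true] at h1
    have h3 : (⟨k + (i : ℕ) - k, by omega⟩ : Fin k) = i := Fin.ext (by simp)
    rw [h3, zmod_two κ hκ] at h1
    have h4 : m + k + (i : ℕ) = m + (k + (i : ℕ)) := by ring
    rw [h4, h1, add_assoc]
    have h5 : (1 : ZMod 2) + 1 = 0 := by decide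
    rw [h5, add_zero]

end Pool.Agent.Q32.TM
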